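import Mathlib
import Pool.Agent.X268.Entropy

set_option autoImplicit false

/-!
# Vanishing of algebraic entropy

Q1 of MP_60863d_al has a positive answer: if `H` has infinite index in the amenable group `G` and
`h_alg(α|H) < ∞` then `h_alg(α) = 0`.
-/

namespace Pool.Agent.Results.MP_60863d_al.Vanishing

open Pool.Agent.X268.Entropy

/-- **Positive answer to Q1 of MP_60863d_al** (`H` need not even be non-trivial). -/
theorem result {G A : Type*} [Group G] [AddCommGroup A] [DistribMulAction G A]
    (hG : Amenable G) (H : Subgroup G) (hH : H.index = 0) (h : halg H A < ⊤) : halg G A = 0 :=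
  halg_eq_zero H hG hH h

end Pool.Agent.Results.MP_60863d_al.Vanishing
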